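import Pool.Agent.NB.Z

/-!
# The bifurcation locus of the space of endomorphisms of `P²` is not the closure of its interior

In degree `2` there is an open set `U` of holomorphic self-maps of `P²` that meets the bifurcation
locus and in which the stable maps are dense.  Both readings of the bifurcation locus are treated at
once: stability of all repelling periodic points, and stability of the repelling periodic points
contained in the small Julia set (the support of the equilibrium measure).

The set `U` is a neighbourhood of the maps `(z, w) ↦ (1000 (z² - 1), w² + 50 (z - 1) + c)`,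
`0 ≤ c ≤ 12`.
-/

set_option autoImplicit false

namespace Pool.Agent.Results.MP_9cfccf_an.NotRegularClosed

open Filter Topology

/-- The monomials `x ^ i * y ^ (d - i - j) * t ^ j` of degree `d` in the three variables
`(x, y, t)`, indexed by the pairs `(i, j)` with `i + j ≤ d`. -/
abbrev Mon (d : ℕ) := {m : Fin (d + 1) × Fin (d + 1) // (m.1 : ℕ) + (m.2 : ℕ) ≤ d}

/-- The space of triples of homogeneous polynomials of degree `d` in `(x, y, t)`, given by their
coefficients. -/
abbrev Coef (d : ℕ) := Fin 3 → Mon d → ℂ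

/-- The polynomial self-map of `ℂ³` given by the triple `F`; here `u = (x, y, t)`. -/
noncomputable def ev (d : ℕ) (F : Coef d) (u : Fin 3 → ℂ) : Fin 3 → ℂ := fun k =>
  ∑ m : Mon d, F k m *
    (u 0 ^ (m.1.1 : ℕ) * u 1 ^ (d - (m.1.1 : ℕ) - (m.1.2 : ℕ)) * u 2 ^ (m.1.2 : ℕ))

/-- The three polynomials have no common zero on `P²`: the triple `F` defines a holomorphic
self-map of `P²` of algebraic degree `d`.  (The space of these self-maps is the quotient of the set
of nondegenerate triples by the nonzero scalars; the quotient map is open and all the notions below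
are invariant under scalars.) -/
def Nondeg (d : ℕ) (F : Coef d) : Prop := ∀ u : Fin 3 → ℂ, u ≠ 0 → ev d F u ≠ 0

/-- The point `u` of `ℂ³` is fixed by the `n`-th iterate of `F`, and all eigenvalues of the
derivative of this iterate at `u` have modulus greater than `1`.  (For `u ≠ 0` this says that the
point of `P²` with homogeneous coordinates `u` is a repelling point fixed by the `n`-th iterate of
the map induced by `F`, and that the lift is normalised: the eigenvalues are those of the map of `P²`
and `d ^ n`.) -/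
def RepPer (d : ℕ) (F : Coef d) (n : ℕ) (u : Fin 3 → ℂ) : Prop :=
  (ev d F)^[n] u = u ∧ ∀ μ : ℂ,
    Module.End.HasEigenvalue (fderiv ℂ ((ev d F)^[n]) u : (Fin 3 → ℂ) →ₗ[ℂ] (Fin 3 → ℂ)) μ →
      1 < ‖μ‖

/-- The small Julia set of the map of `P²` induced by `F`, lifted to `ℂ³`: every open neighbourhood
`V` of `u` that is invariant under multiplication by nonzero scalars contains, for some `c > 0` and all
large `n`, at least `c * d ^ (3 * n)` normalised lifts of repelling points fixed by the `n`-th
iterate.  (Every point of `P²` fixed by the `n`-th iterate has `d ^ n - 1` normalised lifts, so this is a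
positive proportion, among the about `d ^ (2 * n)` points of `P²` fixed by the `n`-th iterate; by the
equidistribution theorem of Briend and Duval it says that `u` is in the support of the equilibrium
measure.) -/
def JSet (d : ℕ) (F : Coef d) : Set (Fin 3 → ℂ) :=
  {u | ∀ V : Set (Fin 3 → ℂ), IsOpen V → (∀ v ∈ V, ∀ a : ℂ, a ≠ 0 → a • v ∈ V) → u ∈ V →
    ∃ c > (0 : ℝ), ∀ᶠ n : ℕ in atTop, ∃ S : Finset (Fin 3 → ℂ),
      (∀ v ∈ S, v ∈ V ∧ v ≠ 0 ∧ RepPer d F n v) ∧ c * (d : ℝ) ^ (3 * n) ≤ (S.card : ℝ)}

/-- `F₀` is stable with respect to the repelling periodic points in the class `J`: it has an open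
neighbourhood `B`, consisting of nondegenerate triples, over which all repelling periodic points
in the class `J` move holomorphically, staying repelling and in the class `J`. -/
def StabOn (d : ℕ) (J : Coef d → Set (Fin 3 → ℂ)) (F₀ : Coef d) : Prop :=
  ∃ B : Set (Coef d), IsOpen B ∧ F₀ ∈ B ∧ (∀ F ∈ B, Nondeg d F) ∧
    ∀ n : ℕ, 1 ≤ n → ∀ F₁ ∈ B, ∀ u₁ : Fin 3 → ℂ, u₁ ≠ 0 → RepPer d F₁ n u₁ → u₁ ∈ J F₁ →
      ∃ u : Coef d → (Fin 3 → ℂ), DifferentiableOn ℂ u B ∧ u F₁ = u₁ ∧
        ∀ F ∈ B, u F ≠ 0 ∧ RepPer d F n (u F) ∧ u F ∈ J F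

/-- Stability of all repelling periodic points. -/
def Stab (d : ℕ) (F₀ : Coef d) : Prop := StabOn d (fun _ => Set.univ) F₀

/-- Stability of the repelling periodic points in the small Julia set. -/
def StabJ (d : ℕ) (F₀ : Coef d) : Prop := StabOn d (JSet d) F₀

/-- The bifurcation locus, defined with all repelling periodic points. -/
def Bif (d : ℕ) : Set (Coef d) := {F | Nondeg d F ∧ ¬ Stab d F}

/-- The bifurcation locus, defined with the repelling periodic points in the small Julia set. -/
def BifJ (d : ℕ) : Set (Coef d) := {F | Nondeg d F ∧ ¬ StabJ d F}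

theorem JSet_eq : JSet 2 = NB.JSet := by
  funext F
  have h8 : ∀ n : ℕ, ((2 : ℕ) : ℝ) ^ (3 * n) = 8 ^ n := fun n => by
    rw [pow_mul]; norm_num
  unfold JSet NB.JSet
  simp only [h8]
  rfl

/-- **Main theorem.** For `d = 2` there is an open set `U` of holomorphic self-maps of `P²` that
meets the bifurcation locus (in both readings) and in which density of stability holds (in both
readings at once).  Hence in both readings the bifurcation locus is not contained in the closure of
its interior; it is not equal to the closure of its interior in the space of holomorphic self-maps of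
`P²` of degree `2`. -/
theorem result :
    (∃ U : Set (Coef 2), IsOpen U ∧ (∀ F ∈ U, Nondeg 2 F) ∧
      (U ∩ Bif 2).Nonempty ∧ (U ∩ BifJ 2).Nonempty ∧
      U ⊆ closure {F | Stab 2 F ∧ StabJ 2 F}) ∧
    Bif 2 ≠ {F | Nondeg 2 F} ∩ closure (interior (Bif 2)) ∧
    BifJ 2 ≠ {F | Nondeg 2 F} ∩ closure (interior (BifJ 2)) := by
  obtain ⟨U, hU, hnd, ⟨F₁, hF₁, h₁⟩, ⟨F₂, hF₂, h₂⟩, hd⟩ := NB.main
  have hd' : U ⊆ closure {F | Stab 2 F ∧ StabJ 2 F} := by
    intro F hF
    have h := hd hF
    have hs : {F | NB.StabOn NB.JSet F ∧ NB.StabOn (fun _ => Set.univ) F} =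
        {F | Stab 2 F ∧ StabJ 2 F} := by
      ext G
      unfold Stab StabJ
      rw [JSet_eq]
      exact and_comm
    rwa [hs] at h
  have hne : (U ∩ Bif 2).Nonempty := ⟨F₂, hF₂, hnd F₂ hF₂, h₂⟩
  have hneJ : (U ∩ BifJ 2).Nonempty := by
    refine ⟨F₁, hF₁, hnd F₁ hF₁, ?_⟩
    unfold StabJ
    rw [JSet_eq]
    exact h₁
  have key : ∀ A : Set (Coef 2), (U ∩ A).Nonempty → (∀ F ∈ A, ¬ (Stab 2 F ∧ StabJ 2 F)) →
      A ≠ {F | Nondeg 2 F} ∩ closure (interior A) := by
    rintro A ⟨F, hFU, hFA⟩ hA heq
    rw [heq] at hFA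
    obtain ⟨G, hGU, hGA⟩ := mem_closure_iff.1 hFA.2 U hU hFU
    obtain ⟨H, ⟨hHA, -⟩, hH⟩ := mem_closure_iff.1 (hd' hGU) (interior A ∩ U)
      (isOpen_interior.inter hU) ⟨hGA, hGU⟩
    exact hA H (interior_subset hHA) hH
  exact ⟨⟨U, hU, hnd, hne, hneJ, hd'⟩, key _ hne fun F hF h => hF.2 h.1,
    key _ hneJ fun F hF h => hF.2 h.2⟩

end Pool.Agent.Results.MP_9cfccf_an.NotRegularClosed
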