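import Pool.Agent.SK.F3

/-!
# Skew products over a bifurcating base are limits of interior points of the bifurcation locus

Let `p` be a polynomial of degree `d ≥ 2` in the bifurcation locus of the space of polynomials of
degree `d`, and `q(z, w)` a polynomial of degree at most `d` in which the monomial `w ^ d` has a
nonzero coefficient.  The skew product `(z, w) ↦ (p(z), q(z, w))` is a holomorphic self-map of `P²`
of algebraic degree `d`; it belongs to the closure of the interior of the bifurcation locus of the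
space of all such maps.
-/

set_option autoImplicit false

namespace Pool.Agent.Results.MP_9cfccf_an.SkewProducts

open Polynomial

/-- The monomials `x ^ i * y ^ (d - i - j) * t ^ j` of degree `d` in the three variables
`(x, y, t)`, indexed by the pairs `(i, j)` with `i + j ≤ d`. -/
abbrev Mon (d : ℕ) := {m : Fin (d + 1) × Fin (d + 1) // (m.1 : ℕ) + (m.2 : ℕ) ≤ d}

/-- The space of triples of homogeneous polynomials of degree `d` in `(x, y, t)`, given by their
coefficients. -/
abbrev Coef (d : ℕ) := Fin 3 → Mon d → ℂ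

/-- The polynomial self-map of `ℂ³` given by the triple `F`; here `u = (x, y, t)`. -/
noncomputable def ev (d : ℕ) (F : Coef d) (u : Fin 3 → ℂ) : Fin 3 → ℂ := fun k =>
  ∑ m : Mon d, F k m *
    (u 0 ^ (m.1.1 : ℕ) * u 1 ^ (d - (m.1.1 : ℕ) - (m.1.2 : ℕ)) * u 2 ^ (m.1.2 : ℕ))

/-- The three polynomials have no common zero on `P²`: the triple `F` defines a holomorphic
self-map of `P²` of algebraic degree `d`. -/
def Nondeg (d : ℕ) (F : Coef d) : Prop := ∀ u : Fin 3 → ℂ, u ≠ 0 → ev d F u ≠ 0

/-- The point `u` of `ℂ³` is fixed by the `n`-th iterate of `F`, and all eigenvalues of the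
derivative of this iterate at `u` have modulus greater than `1`.  (For `u ≠ 0` this says that the
point of `P²` with homogeneous coordinates `u` is a repelling point fixed by the `n`-th iterate of
the map induced by `F`, and that the lift is normalised: the eigenvalues are those of the map of `P²`
and `d ^ n`.) -/
def RepPer (d : ℕ) (F : Coef d) (n : ℕ) (u : Fin 3 → ℂ) : Prop :=
  (ev d F)^[n] u = u ∧ ∀ μ : ℂ,
    Module.End.HasEigenvalue (fderiv ℂ ((ev d F)^[n]) u : (Fin 3 → ℂ) →ₗ[ℂ] (Fin 3 → ℂ)) μ →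
      1 < ‖μ‖

/-- `F₀` is stable: it has an open neighbourhood `B`, consisting of nondegenerate triples, over
which all repelling periodic points move holomorphically. -/
def Stab (d : ℕ) (F₀ : Coef d) : Prop :=
  ∃ B : Set (Coef d), IsOpen B ∧ F₀ ∈ B ∧ (∀ F ∈ B, Nondeg d F) ∧
    ∀ n : ℕ, 1 ≤ n → ∀ F₁ ∈ B, ∀ u₁ : Fin 3 → ℂ, u₁ ≠ 0 → RepPer d F₁ n u₁ →
      ∃ u : Coef d → (Fin 3 → ℂ), DifferentiableOn ℂ u B ∧ u F₁ = u₁ ∧
        ∀ F ∈ B, u F ≠ 0 ∧ RepPer d F n (u F)

/-- The bifurcation locus: the nondegenerate triples that are not stable. -/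
def Bif (d : ℕ) : Set (Coef d) := {F | Nondeg d F ∧ ¬ Stab d F}

/-- `p` is in the bifurcation locus of the space of polynomials of its degree: it is a limit (for the
convergence of the coefficients) of polynomials of the same degree that have a periodic point whose
multiplier has modulus `1` and is different from `1`. -/
def BifBase (p : ℂ[X]) : Prop :=
  ∀ δ > 0, ∃ p' : ℂ[X], p'.natDegree = p.natDegree ∧ (∀ i, ‖p'.coeff i - p.coeff i‖ < δ) ∧
    ∃ n ≥ 1, ∃ x : ℂ, (fun z => p'.eval z)^[n] x = x ∧
      ‖deriv ((fun z => p'.eval z)^[n]) x‖ = 1 ∧ deriv ((fun z => p'.eval z)^[n]) x ≠ 1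

/-- The triple `(p^h(x, y), y ^ d, q^h(x, y, t))`, where `p^h(x, y) = y ^ d * p(x / y)` and
`q^h(x, y, t) = ∑ b i j * x ^ i * y ^ (d - i - j) * t ^ j`.  In the coordinates `z = x / y`,
`w = t / y` it is the skew product `(z, w) ↦ (p(z), ∑ b i j * z ^ i * w ^ j)`. -/
noncomputable def skew (d : ℕ) (p : ℂ[X]) (b : Mon d → ℂ) : Coef d :=
  ![fun m => if (m.1.2 : ℕ) = 0 then p.coeff (m.1.1 : ℕ) else 0,
    fun m => if (m.1.1 : ℕ) = 0 ∧ (m.1.2 : ℕ) = 0 then 1 else 0,
    b]

theorem skew_eq (d : ℕ) (p : ℂ[X]) (b : Mon d → ℂ) : skew d p b = SkewBif.skew d p b := by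
  unfold skew SkewBif.skew SkewBif.fam
  congr 1
  funext m
  simp [SkewBif.baseCoef]

/-- **Main theorem.** Let `d ≥ 2`, let `p` be a polynomial of degree `d` in the bifurcation locus of
the space of polynomials of degree `d`, and let `q(z, w) = ∑ b i j * z ^ i * w ^ j`, the sum over
`i + j ≤ d`, with `b 0 d ≠ 0`.  Then the skew product `(z, w) ↦ (p(z), q(z, w))` belongs to the
closure of the interior of the bifurcation locus `Bif d`. -/
theorem result (d : ℕ) (hd : 2 ≤ d) (p : ℂ[X]) (hp : p.natDegree = d) (hbif : BifBase p)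
    (b : Mon d → ℂ) (hb : b ⟨((0 : Fin (d + 1)), Fin.last d), by simp⟩ ≠ 0) :
    skew d p b ∈ closure (interior (Bif d)) := by
  rw [skew_eq]
  exact SkewBif.skew_mem_closure_interior hd hp hb hbif

end Pool.Agent.Results.MP_9cfccf_an.SkewProducts
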